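import Pool.Agent.MP_f2742c_an.Mg.Transfer

/-! An ergodic pmp action of `PSL₂(ℝ)` without spectral gap for which the pointwise ergodic
theorem for ball averages holds in `L¹`. -/

open MeasureTheory UpperHalfPlane
open scoped MatrixGroups

namespace Pool.Agent.Results.MP_f2742c_an.NoGapL1Pointwise

open Pool.Agent.MP_f2742c_an

theorem result [MeasurableSpace PSL(2, ℝ)] [BorelSpace PSL(2, ℝ)] :
    ∃ (X : Type) (_ : MeasurableSpace X) (_ : StandardBorelSpace X) (μ : Measure X)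
      (_ : IsProbabilityMeasure μ) (_ : MulAction PSL(2, ℝ) X),
      MeasurableSMul₂ PSL(2, ℝ) X ∧ ErgodicSMul PSL(2, ℝ) X μ ∧ ¬ HasSpectralGap X μ ∧
        ∀ (lam : Measure PSL(2, ℝ)) [lam.IsHaarMeasure] (p₀ : ℍ), PointwiseL1 lam p₀ X μ :=
  Pf.main_result

end Pool.Agent.Results.MP_f2742c_an.NoGapL1Pointwise
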